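import Mathlib
import Pool.Agent.H373SQ.Chain

set_option autoImplicit false

namespace Pool.Agent.Results.MP_f4f7a3_al.PSL2CharTwo

open Pool.Agent.H373SQ

/-- If `F` has `2 ^ f` elements and no prime divides the order of `PSL(2, F)` exactly once, then `f`
is divisible by `3 * 7 * 43 * 127 * 337 * 431 * 5419 * 9719 * 2099863 * (2 ^ 127 - 1)`. -/
theorem result (f : ℕ) (F : Type) [Field F] [Finite F] (hF : Nat.card F = 2 ^ f)
    (h : ∀ p : ℕ, p.Prime → p ∣ Nat.card (Matrix.ProjectiveSpecialLinearGroup (Fin 2) F) →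
      p ^ 2 ∣ Nat.card (Matrix.ProjectiveSpecialLinearGroup (Fin 2) F)) :
    3 * 7 * 43 * 127 * 337 * 431 * 5419 * 9719 * 2099863 * (2 ^ 127 - 1) ∣ f := by
  have hf : f ≠ 0 := by
    rintro rfl
    have : 1 < Nat.card F := Finite.one_lt_card
    rw [hF] at this
    omega
  rw [card_PSL 2 (by norm_num) F, hF, ordPSL2_two_pow hf] at h
  exact chain_all hf h

end Pool.Agent.Results.MP_f4f7a3_al.PSL2CharTwo
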